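import Pool.Agent.H14.TOW.Targets

/-! # Row EXT: extension to a basis -/

set_option autoImplicit false

open MvPolynomial Pool.Agent.H14.TOW

namespace Pool.Agent.H72.TOW

/-- an element which is not a combination can be added to an independent family -/
theorem ind_snoc {k K : Type} [Field k] [Field K] [Algebra k K] (σ : K →ₐ[k] K) {m : ℕ}
    (γ : Fin m → K) (hγ : Ind σ γ) (a : K) (ha : ¬ Cmb σ γ a) :
    Ind σ (Fin.snoc γ a : Fin (m + 1) → K) := by
  intro c hc
  rw [Fin.sum_univ_castSucc] at hc
  simp only [Fin.snoc_castSucc, Fin.snoc_last] at hc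
  have hl : c (Fin.last m) = 0 := by
    by_contra h0
    apply ha
    have hs : σ (c (Fin.last m)) ≠ 0 := by
      intro h
      exact h0 (σ.toRingHom.injective (by rw [map_zero]; exact h))
    refine ⟨fun i => - (c i.castSucc / c (Fin.last m)), ?_⟩
    have h1 : a = -(∑ i, γ i * σ (c i.castSucc)) / σ (c (Fin.last m)) := by
      rw [eq_div_iff hs]
      linear_combination hc
    rw [h1, neg_div, Finset.sum_div, ← Finset.sum_neg_distrib]
    refine Finset.sum_congr rfl fun i _ => ?_
    rw [map_neg, map_div₀]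
    ring
  rw [hl, map_zero, mul_zero, add_zero] at hc
  have h2 := hγ (fun i => c i.castSucc) hc
  intro i
  refine Fin.lastCases ?_ (fun j => ?_) i
  · exact hl
  · exact h2 j

theorem pf_EXT (h1 : T_LIN) : T_EXT := by
  intro k K _ _ _ σ n m β γ hβ hs hγ
  -- independent families have at most `n` elements
  have hle : ∀ (m : ℕ) (γ : Fin m → K), Ind σ γ → m ≤ n := fun m γ hγ => by
    have := (h1 k K σ (Fin n) (Fin m) β γ (fun i => hs _) hγ).1
    simpa using this
  obtain ⟨d, hd⟩ : ∃ d, n = m + d := ⟨n - m, by have := hle m γ hγ; omega⟩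
  induction d generalizing m with
  | zero =>
    have hmn : m = n := by omega
    subst hmn
    have h2 := (h1 k K σ (Fin m) (Fin m) β γ (fun i => hs _) hγ).2 le_rfl
    exact ⟨γ, le_rfl, hγ, fun a => h2.2 a (hs a), fun i => rfl⟩
  | succ d ih =>
    -- the family does not span
    have hns : ∃ a, ¬ Cmb σ γ a := by
      by_contra hcon
      push Not at hcon
      have h2 := (h1 k K σ (Fin m) (Fin n) γ β (fun i => hcon _) hβ).1
      rw [Fintype.card_fin, Fintype.card_fin] at h2
      omega
    obtain ⟨a, ha⟩ := hns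
    obtain ⟨δ, h, hδ1, hδ2, hδ3⟩ := ih (m + 1) (Fin.snoc γ a) (ind_snoc σ γ hγ a ha) (by omega)
    refine ⟨δ, by omega, hδ1, hδ2, fun i => ?_⟩
    have h3 := hδ3 i.castSucc
    rw [Fin.snoc_castSucc] at h3
    exact h3

end Pool.Agent.H72.TOW
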