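import Pool.Agent.H14.TOW.Targets

/-! # Row NIT: iterates have no invariant functions -/

set_option autoImplicit false

open MvPolynomial Pool.Agent.H14.TOW

namespace Pool.Agent.H72.TOW

theorem pf_NIT : T_NIT := by
  intro k K _ _ _ _ σ hσ m hm a ha
  have hpow : ∀ i : ℕ, (σ ^ i) a = σ^[i] a := fun i => by
    rw [AlgHom.coe_pow]
  -- the polynomial with the orbit as set of roots
  set f : Polynomial K := ∏ i ∈ Finset.range m, (Polynomial.X - Polynomial.C (σ^[i] a)) with hf
  have hmonic : f.Monic := Polynomial.monic_prod_of_monic _ _ fun i _ => Polynomial.monic_X_sub_C _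
  have hfix : f.map (σ : K →+* K) = f := by
    rw [hf, Polynomial.map_prod]
    have h1 : ∀ i ∈ Finset.range m, (Polynomial.X - Polynomial.C (σ^[i] a)).map (σ : K →+* K) =
        Polynomial.X - Polynomial.C (σ^[i + 1] a) := fun i _ => by
      rw [Polynomial.map_sub, Polynomial.map_X, Polynomial.map_C, Function.iterate_succ_apply']
      rfl
    rw [Finset.prod_congr rfl h1]
    obtain ⟨m', rfl⟩ : ∃ m', m = m' + 1 := ⟨m - 1, by omega⟩
    have hper : σ^[m' + 1] a = σ^[0] a := by
      rw [← hpow, ha]; rfl
    rw [Finset.prod_range_succ, hper, Finset.prod_range_succ' (fun i => _)]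
  have hcoef : ∀ n, ∃ c : k, f.coeff n = algebraMap k K c := fun n => by
    apply hσ
    have := congrArg (fun g => Polynomial.coeff g n) hfix
    simpa [Polynomial.coeff_map] using this
  have hlift : f ∈ Polynomial.lifts (algebraMap k K) := by
    rw [Polynomial.lifts_iff_coeff_lifts]
    intro n
    obtain ⟨c, hc⟩ := hcoef n
    exact ⟨c, hc.symm⟩
  obtain ⟨g, hg, -, hgm⟩ := Polynomial.lifts_and_natDegree_eq_and_monic hlift hmonic
  have hroot : Polynomial.eval₂ (algebraMap k K) a g = 0 := by
    rw [← Polynomial.eval_map, hg, hf, Polynomial.eval_prod]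
    refine Finset.prod_eq_zero (Finset.mem_range.2 (by omega : 0 < m)) ?_
    simp
  have hint : IsIntegral k a := ⟨g, hgm, hroot⟩
  obtain ⟨c, hc⟩ := minpoly.mem_range_of_degree_eq_one k a
    (IsAlgClosed.degree_eq_one_of_irreducible k (minpoly.irreducible hint))
  exact ⟨c, hc.symm⟩

end Pool.Agent.H72.TOW
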