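import Pool.Agent.H14.TOW.Targets

/-! # Row RST: restriction of a place -/

set_option autoImplicit false

open MvPolynomial Pool.Agent.H14.TOW

namespace Pool.Agent.H72.TOW

theorem rv_of_mem {k K κ : Type} [Field k] [Field K] [Field κ] [Algebra k K] [Algebra k κ]
    (O : Subalgebra k K) (ρ : O →ₐ[k] κ) {a : K} (h : a ∈ O) : rv O ρ a = ρ ⟨a, h⟩ := by
  unfold rv
  rw [dif_pos h]

theorem rv_of_not_mem {k K κ : Type} [Field k] [Field K] [Field κ] [Algebra k K] [Algebra k κ]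
    (O : Subalgebra k K) (ρ : O →ₐ[k] κ) {a : K} (h : a ∉ O) : rv O ρ a = 0 := by
  unfold rv
  rw [dif_neg h]

theorem pf_RST : T_RST := by
  intro k K κ _ _ _ _ _ σ O ρ τ E σE hσE hP
  set OE : Subalgebra k E := O.comap E.val with hOE
  have hmem : ∀ a : E, a ∈ OE ↔ (a : K) ∈ O := fun a => Iff.rfl
  let ρE : OE →ₐ[k] κ :=
    { toFun := fun a => ρ ⟨((a : E) : K), (hmem a).1 a.2⟩
      map_one' := map_one ρ
      map_mul' := fun a b => (map_mul ρ ⟨((a : E) : K), (hmem a).1 a.2⟩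
        ⟨((b : E) : K), (hmem b).1 b.2⟩)
      map_zero' := map_zero ρ
      map_add' := fun a b => (map_add ρ ⟨((a : E) : K), (hmem a).1 a.2⟩
        ⟨((b : E) : K), (hmem b).1 b.2⟩)
      commutes' := fun r => ρ.commutes r }
  have hrv : ∀ a : E, rv OE ρE a = rv O ρ (a : K) := by
    intro a
    by_cases h : a ∈ OE
    · rw [rv_of_mem OE ρE h, rv_of_mem O ρ ((hmem a).1 h)]
      rfl
    · rw [rv_of_not_mem OE ρE h, rv_of_not_mem O ρ (fun h' => h ((hmem a).2 h'))]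
  refine ⟨OE, ρE, ⟨fun a ha h0 => ?_, fun a ha => ?_⟩, fun a => ⟨hmem a, hrv a⟩⟩
  · rw [hrv] at h0
    exact (hmem _).2 (hP.unit _ ((hmem a).1 ha) h0)
  · have h1 := hP.stab _ ((hmem a).1 ha)
    rw [← hσE] at h1
    exact ⟨(hmem _).2 h1.1, by rw [hrv, hrv]; exact h1.2⟩

end Pool.Agent.H72.TOW
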